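import Mathlib

namespace Pool.Agent.Results.MP_3fd052_nt.AvoidsEleven

/-- The lower degree `inf {d ≥ 1 : k n - k (n-1) = d for infinitely many n ≥ 1}` of a strictly
increasing sequence, with `inf ∅ = ∞`. -/
noncomputable def lowerDeg (k : ℕ → ℕ) : ℕ∞ :=
  sInf {D : ℕ∞ | ∃ d : ℕ, 1 ≤ d ∧ D = d ∧ {n : ℕ | 1 ≤ n ∧ k n = k (n - 1) + d}.Infinite}

/-- `b` is a `K`-sequence for `K = (k n)`: it is constant on every block
`k n, k n + 1, …, k (n+1) - 1`, and `b (k n) - b (k (n-1)) = b n` for all `n ≥ 1`. -/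
structure IsKSequence (k : ℕ → ℕ) (b : ℕ → ℤ) : Prop where
  const : ∀ n i : ℕ, k n ≤ i → i < k (n + 1) → b i = b (k n)
  diff : ∀ n : ℕ, 1 ≤ n → b (k n) - b (k (n - 1)) = b n

/-- the check for one triple -/
def chk (s δ δ' : ℕ) : Bool :=
  (δ == 0) || (δ' == 0) || (δ' == δ) || !((List.range 6).all fun t => (s + t * δ) % 11 != 0) ||
    ((List.range 11).any fun d => decide (3 ≤ d) &&
      ((List.range (d + 1)).all fun t => (s + t * δ) % 11 != 0) &&
      ((List.range 6).all fun t => (s + d * δ + t * δ') % 11 != 0))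

lemma chk_all : ((List.range 11).all fun s => (List.range 11).all fun δ =>
    (List.range 11).all fun δ' => chk s δ δ') = true := by decide +kernel

/-- the finite check -/
lemma key (s : ℕ) (hs : s < 11) (δ : ℕ) (hδ : δ < 11) (δ' : ℕ) (hδ' : δ' < 11)
    (h1 : δ ≠ 0) (h2 : δ' ≠ 0) (h3 : δ' ≠ δ) (h4 : ∀ t < 6, (s + t * δ) % 11 ≠ 0) :
    ∃ d < 11, 3 ≤ d ∧ (∀ t < d + 1, (s + t * δ) % 11 ≠ 0) ∧
      (∀ t < 6, (s + d * δ + t * δ') % 11 ≠ 0) := by
  have h := chk_all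
  simp only [List.all_eq_true, List.mem_range] at h
  have h5 := h s hs δ hδ δ' hδ'
  have h6 : ((List.range 6).all fun t => (s + t * δ) % 11 != 0) = true := by
    simp only [List.all_eq_true, List.mem_range, bne_iff_ne]
    exact h4
  unfold chk at h5
  rw [h6] at h5
  simp only [Bool.or_eq_true, beq_iff_eq, h1, h2, h3, Bool.not_true, Bool.false_eq_true,
    List.any_eq_true, List.mem_range, Bool.and_eq_true, decide_eq_true_eq, List.all_eq_true,
    bne_iff_ne, false_or] at h5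
  obtain ⟨d, hd, ⟨h7, h8⟩, h9⟩ := h5
  exact ⟨d, hd, h7, h8, h9⟩

lemma split (x : ℤ) : ∃ m : ℕ, ∃ z : ℤ, m < 11 ∧ x = m + 11 * z :=
  ⟨(x % 11).toNat, x / 11, by omega, by omega⟩

lemma dvd_iff (m : ℕ) (z : ℤ) : (11 : ℤ) ∣ (m : ℤ) + 11 * z ↔ m % 11 = 0 := by omega

lemma key_int (s δ δ' : ℤ) (h1 : ¬ (11 : ℤ) ∣ δ) (h2 : ¬ (11 : ℤ) ∣ δ')
    (h3 : ¬ (11 : ℤ) ∣ (δ' - δ)) (h4 : ∀ t : ℕ, t < 6 → ¬ (11 : ℤ) ∣ (s + t * δ)) :
    ∃ d : ℕ, 3 ≤ d ∧ (∀ t : ℕ, t ≤ d → ¬ (11 : ℤ) ∣ (s + t * δ)) ∧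
      (∀ t : ℕ, t < 6 → ¬ (11 : ℤ) ∣ (s + d * δ + t * δ')) := by
  obtain ⟨s0, a, hs0, rfl⟩ := split s
  obtain ⟨d0, b, hd0, rfl⟩ := split δ
  obtain ⟨e0, c, he0, rfl⟩ := split δ'
  have e1 : ∀ t : ℕ, (s0 : ℤ) + 11 * a + t * ((d0 : ℤ) + 11 * b) =
      ((s0 + t * d0 : ℕ) : ℤ) + 11 * (a + t * b) := by intro t; push_cast; ring
  have e2 : ∀ d t : ℕ, (s0 : ℤ) + 11 * a + d * ((d0 : ℤ) + 11 * b) + t * ((e0 : ℤ) + 11 * c) =
      ((s0 + d * d0 + t * e0 : ℕ) : ℤ) + 11 * (a + d * b + t * c) := by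
    intro d t; push_cast; ring
  obtain ⟨d, _, hd1, hd2, hd3⟩ := key s0 hs0 d0 hd0 e0 he0
    (fun h => h1 (by rw [dvd_iff]; omega)) (fun h => h2 (by rw [dvd_iff]; omega))
    (fun h => h3 (by subst h; exact ⟨c - b, by ring⟩))
    (fun t ht h => h4 t ht (by rw [e1, dvd_iff]; exact h))
  refine ⟨d, hd1, fun t ht h => ?_, fun t ht h => ?_⟩
  · rw [e1, dvd_iff] at h
    exact hd2 t (by omega) h
  · rw [e2, dvd_iff] at h
    exact hd3 t ht h

/-- state of the construction after the blocks `0, …, j - 1` have been fixed: the number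
`K = k j` and the values `f n = b (k n)`, correct for `n < K` -/
structure St where
  K : ℕ
  f : ℕ → ℤ

/-- the invariant -/
structure Inv (j : ℕ) (σ : St) : Prop where
  big : j + 2 ≤ σ.K
  nz : ∀ n, n < σ.K → ¬ (11 : ℤ) ∣ σ.f n
  dif : ∀ n, n + 1 < σ.K → ¬ (11 : ℤ) ∣ (σ.f (n + 1) - σ.f n)
  good : ∀ t : ℕ, t < 6 → ¬ (11 : ℤ) ∣ (σ.f (σ.K - 1) + t * σ.f j)

/-- extension of a state by a block of length `d` -/
def ext (j : ℕ) (σ : St) (d : ℕ) : St where
  K := σ.K + d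
  f := fun n => if n < σ.K then σ.f n else σ.f (σ.K - 1) + ((n - (σ.K - 1) : ℕ) : ℤ) * σ.f j

lemma exists_ext (j : ℕ) (σ : St) (h : Inv j σ) : ∃ d, 3 ≤ d ∧ Inv (j + 1) (ext j σ d) := by
  have hK := h.big
  obtain ⟨d, hd1, hd2, hd3⟩ := key_int (σ.f (σ.K - 1)) (σ.f j) (σ.f (j + 1))
    (h.nz j (by omega)) (h.nz (j + 1) (by omega)) (h.dif j (by omega)) h.good
  refine ⟨d, hd1, ?_, ?_, ?_, ?_⟩
  · simp only [ext]; omega
  · intro n hn
    simp only [ext] at hn ⊢
    split_ifs with h1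
    · exact h.nz n h1
    · exact hd2 (n - (σ.K - 1)) (by omega)
  · intro n hn
    simp only [ext] at hn ⊢
    by_cases h1 : n + 1 < σ.K
    · rw [if_pos h1, if_pos (by omega)]
      exact h.dif n h1
    · rw [if_neg h1]
      by_cases h2 : n < σ.K
      · rw [if_pos h2]
        have h3 : n = σ.K - 1 := by omega
        have h4 : n + 1 - (σ.K - 1) = 1 := by omega
        rw [h4, h3]
        have h5 : σ.f (σ.K - 1) + ((1 : ℕ) : ℤ) * σ.f j - σ.f (σ.K - 1) = σ.f j := by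
          push_cast; ring
        rw [h5]
        exact h.nz j (by omega)
      · rw [if_neg h2]
        have h4 : ((n + 1 - (σ.K - 1) : ℕ) : ℤ) = ((n - (σ.K - 1) : ℕ) : ℤ) + 1 := by
          have : n + 1 - (σ.K - 1) = n - (σ.K - 1) + 1 := by omega
          rw [this]; push_cast; ring
        rw [h4]
        have h5 : σ.f (σ.K - 1) + (((n - (σ.K - 1) : ℕ) : ℤ) + 1) * σ.f j -
            (σ.f (σ.K - 1) + ((n - (σ.K - 1) : ℕ) : ℤ) * σ.f j) = σ.f j := by ring
        rw [h5]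
        exact h.nz j (by omega)
  · intro t ht
    simp only [ext]
    rw [if_neg (by omega), if_pos (by omega)]
    have h4 : σ.K + d - 1 - (σ.K - 1) = d := by omega
    rw [h4]
    exact hd3 t ht

/-- the states, with their invariants; stage `i` has the blocks `0, …, i` fixed -/
noncomputable def stage : (i : ℕ) → {σ : St // Inv (i + 1) σ}
  | 0 => ⟨⟨4, fun n => (n : ℤ) + 1⟩, by
      refine ⟨by norm_num, ?_, ?_, ?_⟩
      · intro n hn
        change n < 4 at hn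
        change ¬ (11 : ℤ) ∣ ((n : ℤ) + 1)
        interval_cases n <;> norm_num
      · intro n hn
        change n + 1 < 4 at hn
        change ¬ (11 : ℤ) ∣ (((n + 1 : ℕ) : ℤ) + 1 - ((n : ℤ) + 1))
        push_cast
        ring_nf
        norm_num
      · intro t ht
        change ¬ (11 : ℤ) ∣ ((((4 - 1 : ℕ) : ℤ) + 1) + t * (((0 + 1 : ℕ) : ℤ) + 1))
        interval_cases t <;> norm_num⟩
  | (i + 1) => ⟨ext (i + 1) (stage i).1 (Classical.choose (exists_ext _ _ (stage i).2)),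
      (Classical.choose_spec (exists_ext _ _ (stage i).2)).2⟩

/-- block lengths -/
noncomputable def dd (i : ℕ) : ℕ := Classical.choose (exists_ext _ _ (stage i).2)

lemma dd_ge (i : ℕ) : 3 ≤ dd i := (Classical.choose_spec (exists_ext _ _ (stage i).2)).1

lemma stage_succ (i : ℕ) : (stage (i + 1)).1 = ext (i + 1) (stage i).1 (dd i) := rfl

/-- the sequence `K` -/
noncomputable def k : ℕ → ℕ
  | 0 => 0
  | (i + 1) => (stage i).1.K

lemma k_zero : k 0 = 0 := rfl
lemma k_one : k 1 = 4 := rfl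
lemma k_succ_succ (i : ℕ) : k (i + 2) = k (i + 1) + dd i := rfl

lemma k_step (i : ℕ) : k i + 3 ≤ k (i + 1) := by
  rcases i with _ | i
  · rw [k_zero, k_one]; norm_num
  · rw [k_succ_succ]; have := dd_ge i; omega

lemma k_strictMono : StrictMono k := strictMono_nat_of_lt_succ fun i => by
  have := k_step i; omega

/-- the values `b (k n)` -/
noncomputable def β (n : ℕ) : ℤ := (stage n).1.f n

lemma stage_stable (i n : ℕ) (h : n < k (i + 1)) (m : ℕ) :
    (stage (i + m)).1.f n = (stage i).1.f n := by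
  induction m with
  | zero => rfl
  | succ m ih =>
    have h1 : n < (stage (i + m)).1.K := by
      have h2 : k (i + 1) ≤ k (i + m + 1) := k_strictMono.monotone (by omega)
      exact lt_of_lt_of_le h h2
    rw [show i + (m + 1) = (i + m) + 1 by ring, stage_succ]
    simp only [ext]
    rw [if_pos h1, ih]

lemma lt_k (n : ℕ) : n < k (n + 1) := by
  have := k_strictMono.le_apply (x := n + 1)
  omega

lemma f_eq_β (i n : ℕ) (h : n < k (i + 1)) : (stage i).1.f n = β n := by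
  unfold β
  rcases le_total i n with h1 | h1
  · obtain ⟨m, rfl⟩ := Nat.exists_eq_add_of_le h1
    exact (stage_stable i (i + m) h m).symm
  · obtain ⟨m, rfl⟩ := Nat.exists_eq_add_of_le h1
    exact stage_stable n n (lt_k n) m

lemma β_nz (n : ℕ) : ¬ (11 : ℤ) ∣ β n := (stage n).2.nz n (lt_k n)

lemma β_zero (n : ℕ) (h : n < 4) : β n = n + 1 := by
  rw [← f_eq_β 0 n (by rw [k_one]; exact h)]; rfl

/-- the recursion inside the blocks -/
lemma β_rec (j n : ℕ) (h1 : k (j + 1) ≤ n) (h2 : n < k (j + 2)) :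
    β n - β (n - 1) = β (j + 1) := by
  have hK : (stage j).1.K = k (j + 1) := rfl
  have hpos : 0 < k (j + 1) := by have := k_step j; omega
  have hj : j + 1 < k (j + 1) := by
    have := (stage j).2.big
    rw [hK] at this; omega
  have e1 : β n = (stage j).1.f (k (j + 1) - 1) +
      ((n - (k (j + 1) - 1) : ℕ) : ℤ) * (stage j).1.f (j + 1) := by
    rw [← f_eq_β (j + 1) n h2, stage_succ]
    simp only [ext]
    rw [hK, if_neg (by omega)]
  have e2 : (stage j).1.f (j + 1) = β (j + 1) := f_eq_β j (j + 1) hj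
  have e3 : (stage j).1.f (k (j + 1) - 1) = β (k (j + 1) - 1) := f_eq_β j _ (by omega)
  rcases Nat.eq_or_lt_of_le h1 with h3 | h3
  · rw [e1, e2, e3, ← h3]
    have : k (j + 1) - (k (j + 1) - 1) = 1 := by omega
    rw [this]; push_cast; ring
  · have e4 : β (n - 1) = (stage j).1.f (k (j + 1) - 1) +
        ((n - 1 - (k (j + 1) - 1) : ℕ) : ℤ) * (stage j).1.f (j + 1) := by
      rw [← f_eq_β (j + 1) (n - 1) (lt_of_le_of_lt (Nat.sub_le n 1) h2), stage_succ]
      simp only [ext]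
      rw [hK, if_neg (by omega)]
    rw [e1, e4, e2]
    have : n - (k (j + 1) - 1) = (n - 1 - (k (j + 1) - 1)) + 1 := by omega
    rw [this]; push_cast; ring

/-- the `K`-sequence -/
noncomputable def b (n : ℕ) : ℤ := if n = 0 then β 0 else β n - β (n - 1)

lemma b_block (j n : ℕ) (h1 : k j ≤ n) (h2 : n < k (j + 1)) : b n = β j := by
  unfold b
  rcases j with _ | j
  · rw [k_one] at h2
    split_ifs with h
    · rfl
    · rw [β_zero n h2, β_zero (n - 1) (by omega), β_zero 0 (by norm_num)]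
      have : ((n - 1 : ℕ) : ℤ) = n - 1 := by
        rw [Nat.cast_sub (by omega)]; simp
      rw [this]; push_cast; ring
  · have hpos : 0 < k (j + 1) := by have := k_step j; omega
    rw [if_neg (by omega)]
    exact β_rec j n h1 h2

lemma b_k (n : ℕ) : b (k n) = β n := b_block n (k n) le_rfl (k_strictMono (Nat.lt_succ_self n))

lemma isKSequence : IsKSequence k b where
  const n i h1 h2 := by rw [b_k, b_block n i h1 h2]
  diff n hn := by
    rw [b_k, b_k]
    unfold b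
    rw [if_neg (by omega)]

lemma exists_block (n : ℕ) : ∃ j, k j ≤ n ∧ n < k (j + 1) := by
  have h : ∃ m, n < k m := ⟨n + 1, lt_k n⟩
  classical
  have h1 := Nat.find_spec h
  have h2 : Nat.find h ≠ 0 := by
    intro h0; rw [h0, k_zero] at h1; omega
  obtain ⟨j, hj⟩ := Nat.exists_eq_succ_of_ne_zero h2
  refine ⟨j, ?_, ?_⟩
  · have := Nat.find_min h (m := j) (by omega)
    omega
  · rw [hj] at h1; exact h1

lemma b_nz (n : ℕ) : ¬ (11 : ℤ) ∣ b n := by
  obtain ⟨j, h1, h2⟩ := exists_block n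
  rw [b_block j n h1 h2]
  exact β_nz j

lemma lowerDeg_ge : 3 ≤ lowerDeg k := by
  unfold lowerDeg
  apply le_sInf
  rintro D ⟨d, hd, rfl, hinf⟩
  obtain ⟨n, hn1, hn2⟩ := hinf.nonempty
  obtain ⟨m, rfl⟩ : ∃ m, n = m + 1 := ⟨n - 1, by omega⟩
  rw [Nat.add_sub_cancel] at hn2
  have := k_step m
  have h3 : 3 ≤ d := by omega
  exact_mod_cast h3

/-- The conjecture is false: there are a sequence `K` of lower degree at least `3` and a
`K`-sequence `b` such that no value `b n` is divisible by `h = 11`. -/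
theorem result :
    (∃ k : ℕ → ℕ, k 0 = 0 ∧ StrictMono k ∧ 3 ≤ lowerDeg k ∧
      ∃ b : ℕ → ℤ, IsKSequence k b ∧ ∀ n, ¬ (11 : ℤ) ∣ b n) ∧
    ¬ (∀ k : ℕ → ℕ, k 0 = 0 → StrictMono k → 3 ≤ lowerDeg k →
      ∀ b : ℕ → ℤ, IsKSequence k b → ∀ h : ℕ, 1 ≤ h → {n : ℕ | (h : ℤ) ∣ b n}.Infinite) := by
  refine ⟨⟨k, k_zero, k_strictMono, lowerDeg_ge, b, isKSequence, b_nz⟩, fun H => ?_⟩
  have h := H k k_zero k_strictMono lowerDeg_ge b isKSequence 11 (by norm_num)
  obtain ⟨n, hn⟩ := h.nonempty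
  exact b_nz n (by exact_mod_cast hn)

end Pool.Agent.Results.MP_3fd052_nt.AvoidsEleven
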